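import Pool.Agent.H75.PRL.S3

/-!
# The Poonen-Rains law, row DIA: diagonalisation of a ternary form over `F(t)`
-/

set_option autoImplicit false

namespace Pool.PRL

open Polynomial Matrix Pool.AVR Pool.AVS Pool.RZ

/-- diagonalisation by congruence -/
theorem dia_diag {K : Type} [Field K] (h2 : (2 : K) ≠ 0) (G : Matrix (Fin 3) (Fin 3) K)
    (hG : Gᵀ = G) : ∃ (g : Matrix (Fin 3) (Fin 3) K) (d : Fin 3 → K), g.det ≠ 0 ∧
      gᵀ * G * g = Matrix.diagonal d := by
  let _ : Invertible (2 : K) := invertibleOfNonzero h2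
  have hs : (Matrix.toBilin' G).IsSymm := Matrix.isSymm_toBilin'_iff_isSymm.2 hG
  obtain ⟨v, hv⟩ := LinearMap.BilinForm.exists_orthogonal_basis
    (LinearMap.BilinForm.isSymm_iff.1 hs)
  have hf : Module.finrank K (Fin 3 → K) = 3 := by simp
  let w : Module.Basis (Fin 3) K (Fin 3 → K) := v.reindex (finCongr hf)
  have hw : ∀ i j, i ≠ j → w i ⬝ᵥ (G *ᵥ w j) = 0 := by
    intro i j hij
    have h1 := hv (i := (finCongr hf).symm i) (j := (finCongr hf).symm j)
      (fun h => hij ((finCongr hf).symm.injective h))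
    rw [LinearMap.IsOrthoᵢ] at hv
    have h3 : Matrix.toBilin' G (w i) (w j) = 0 := by
      simpa [w, Function.onFun] using h1
    rwa [Matrix.toBilin'_apply'] at h3
  let g : Matrix (Fin 3) (Fin 3) K := Matrix.of fun i j => w j i
  have hgd : g.det ≠ 0 := by
    have h1 : g = (Pi.basisFun K (Fin 3)).toMatrix w := by
      ext i j
      simp [g, Module.Basis.toMatrix_apply]
    have h2 : IsUnit ((Pi.basisFun K (Fin 3)).toMatrix w).det := by
      have := (Pi.basisFun K (Fin 3)).toMatrix_mul_toMatrix_flip w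
      exact IsUnit.of_mul_eq_one _ (by rw [← Matrix.det_mul, this, Matrix.det_one])
    rw [h1]
    exact h2.ne_zero
  refine ⟨g, fun i => w i ⬝ᵥ (G *ᵥ w i), hgd, ?_⟩
  ext i j
  have e1 : (gᵀ * G * g) i j = w i ⬝ᵥ (G *ᵥ w j) := by
    rw [Matrix.mul_assoc, Matrix.mul_apply]
    simp only [dotProduct, Matrix.transpose_apply]
    apply Finset.sum_congr rfl
    intro k _
    have : (G * g) k j = (G *ᵥ w j) k := by
      simp [Matrix.mul_apply, Matrix.mulVec, dotProduct, g]
    rw [this]
    rfl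
  rw [e1]
  by_cases hij : i = j
  · subst hij
    simp
  · rw [hw i j hij, Matrix.diagonal_apply_ne _ hij]

theorem dia_thm : DIAStmt := by
  intro F _ h2 G ε hG hε hdet
  have h2K : (2 : RatFunc F) ≠ 0 := by
    intro h
    apply h2
    have : algebraMap F (RatFunc F) 2 = 0 := by rw [map_ofNat]; exact h
    exact (map_eq_zero_iff _ (algebraMap F (RatFunc F)).injective).1 this
  obtain ⟨g, d, hg, hd⟩ := dia_diag h2K G hG
  -- determinants
  have hdd : d 0 * d 1 * d 2 = -(ε * g.det) ^ 2 := by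
    have h1 : (gᵀ * G * g).det = (Matrix.diagonal d).det := by rw [hd]
    rw [Matrix.det_mul, Matrix.det_mul, Matrix.det_transpose, hdet, Matrix.det_diagonal,
      Fin.prod_univ_three] at h1
    rw [← h1]; ring
  have hne : d 0 * d 1 * d 2 ≠ 0 := by
    rw [hdd]
    exact neg_ne_zero.2 (pow_ne_zero _ (mul_ne_zero hε hg))
  have h0 : d 0 ≠ 0 := fun h => hne (by rw [h]; ring)
  have h1 : d 1 ≠ 0 := fun h => hne (by rw [h]; ring)
  have key : ∀ x : RatFunc F, x ≠ 0 → ∃ (a : F[X]) (s : RatFunc F), a ≠ 0 ∧ s ≠ 0 ∧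
      s ^ 2 * x = rf a := by
    intro x hx
    refine ⟨x.num * x.denom, rf x.denom, mul_ne_zero (RatFunc.num_ne_zero hx)
      x.denom_ne_zero, ?_, ?_⟩
    · exact RatFunc.algebraMap_ne_zero x.denom_ne_zero
    · have h3 : rf x.denom ≠ 0 := RatFunc.algebraMap_ne_zero x.denom_ne_zero
      have h4 : x = rf x.num / rf x.denom := (RatFunc.num_div_denom x).symm
      have h5 : rf (x.num * x.denom) = rf x.num * rf x.denom := by simp [rf]
      have h6 : x * rf x.denom = rf x.num := by
        rw [eq_div_iff h3] at h4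
        exact h4
      rw [h5, ← h6]
      ring
  obtain ⟨a, s, ha, hs, hsa⟩ := key _ h0
  obtain ⟨b, t, hb, ht, htb⟩ := key _ h1
  have hra : rf a ≠ 0 := RatFunc.algebraMap_ne_zero ha
  have hrb : rf b ≠ 0 := RatFunc.algebraMap_ne_zero hb
  set u : RatFunc F := rf a * rf b / (ε * g.det * (s * t)) with hu
  have hu0 : u ≠ 0 := by
    rw [hu]
    exact div_ne_zero (mul_ne_zero hra hrb)
      (mul_ne_zero (mul_ne_zero hε hg) (mul_ne_zero hs ht))
  refine ⟨a, b, g * Matrix.diagonal ![s, t, u], ha, hb, ?_, ?_⟩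
  · rw [Matrix.det_mul, Matrix.det_diagonal, Fin.prod_univ_three]
    exact mul_ne_zero hg (mul_ne_zero (mul_ne_zero hs ht) hu0)
  · have e1 : (g * Matrix.diagonal ![s, t, u])ᵀ * G * (g * Matrix.diagonal ![s, t, u]) =
        (Matrix.diagonal ![s, t, u]) * (gᵀ * G * g) * Matrix.diagonal ![s, t, u] := by
      rw [Matrix.transpose_mul, Matrix.diagonal_transpose]
      simp only [Matrix.mul_assoc]
    rw [e1, hd, Matrix.diagonal_mul_diagonal, Matrix.diagonal_mul_diagonal]
    congr 1
    have hab : rf (a * b) = rf a * rf b := by simp [rf]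
    have h3 : u * d 2 * u = -(rf a * rf b) := by
      have h4 : d 2 = -(ε * g.det) ^ 2 / (d 0 * d 1) := by
        rw [← hdd]; field_simp
      have h5 : d 0 = rf a / s ^ 2 := by rw [← hsa]; field_simp
      have h6 : d 1 = rf b / t ^ 2 := by rw [← htb]; field_simp
      rw [h4, hu, h5, h6]
      field_simp
    funext i
    fin_cases i
    · show s * d 0 * s = rf a
      rw [← hsa]; ring
    · show t * d 1 * t = rf b
      rw [← htb]; ring
    · show u * d 2 * u = -rf (a * b)
      rw [h3, hab]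

end Pool.PRL

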