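import Pool.Agent.H75.PRL.S2
import Pool.Agent.H77.RZ.LM
import Pool.Agent.H77.RZ.USE
import Pool.Agent.H69.AVS.POL
import Pool.Agent.H4.PRL.LMI

/-!
# The Poonen-Rains law, row CYC: unimodular stable lattices and unit classes
-/

set_option autoImplicit false

namespace Pool.PRL

open Polynomial Matrix Pool.AVR Pool.AVS Pool.RZ

namespace CYC

section Coord

variable {K : Type} [Field K]

/-- companion matrix -/
def cm (a b c : K) : Matrix (Fin 3) (Fin 3) K := !![0, 0, -c; 1, 0, -b; 0, 1, -a]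

theorem cm_charpoly (a b c : K) : (cm a b c).charpoly = cub a b c := by
  unfold cm cub
  rw [Matrix.charpoly, Matrix.det_fin_three]
  simp [Matrix.charmatrix_apply]
  ring

theorem cub_dvd_X3 (a b c : K) (h : K[X]) (p : K[X]) :
    tau a b c (p * X ^ 3 * h) = -c * tau a b c (p * h) - b * tau a b c (p * X * h) -
      a * tau a b c (p * X ^ 2 * h) := by
  have e : tau a b c (p * X ^ 3 * h) = tau a b c (C (-c) * (p * h) + C (-b) * (p * X * h) +
      C (-a) * (p * X ^ 2 * h)) := by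
    apply LM.tau_congr
    refine ⟨p * h, ?_⟩
    unfold cub
    simp only [C_neg]
    ring
  rw [e, LM.tau_add, LM.tau_add, LM.tau_C_mul, LM.tau_C_mul, LM.tau_C_mul]
  ring

theorem gr1_eq (a b c : K) (h : K[X]) : gr1 a b c h = gr0 a b c h * cm a b c := by
  ext i j
  rw [Matrix.mul_apply, Fin.sum_univ_three]
  simp only [gr0, gr1, cm, Matrix.of_apply]
  fin_cases j
  · simp only [Fin.zero_eta, Fin.val_zero, Fin.val_one, Fin.val_two, Matrix.cons_val_zero,
      Matrix.cons_val', Matrix.cons_val_one, Matrix.cons_val]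
    rw [mul_zero, mul_one, mul_zero, zero_add, add_zero]
    congr 1; ring
  · simp only [Fin.mk_one, Fin.val_zero, Fin.val_one, Fin.val_two, Matrix.cons_val_zero,
      Matrix.cons_val', Matrix.cons_val_one, Matrix.cons_val]
    rw [mul_zero, mul_one, mul_zero, zero_add, zero_add]
    congr 1; ring
  · simp only [Fin.reduceFinMk, Fin.val_zero, Fin.val_one, Fin.val_two, Matrix.cons_val_zero,
      Matrix.cons_val', Matrix.cons_val_one, Matrix.cons_val]
    have e : X * (X ^ (i : ℕ) * X ^ 2 * h) = X ^ (i : ℕ) * X ^ 3 * h := by ring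
    rw [e, cub_dvd_X3, pow_zero, mul_one, pow_one]
    ring

/-- the coordinates of the family -/
noncomputable def EM (a b c : K) (e : Fin 3 → K[X]) : Matrix (Fin 3) (Fin 3) K :=
  Matrix.of fun i j => LM.co a b c (e j) i

theorem gram (a b c : K) (h : K[X]) (e : Fin 3 → K[X]) (G : Matrix (Fin 3) (Fin 3) K)
    (hG : ∀ i j, tau a b c (e i * e j * h) = G i j) :
    G = (EM a b c e)ᵀ * gr0 a b c h * EM a b c e := by
  ext i j
  rw [← hG i j, ← LM.tau_co, Matrix.mul_apply]
  apply Finset.sum_congr rfl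
  intro l _
  rw [Matrix.mul_apply]
  rfl

theorem gr0_X (a b c : K) (h : K[X]) : gr0 a b c (X * h) = gr1 a b c h := by
  ext i j
  simp only [gr0, gr1, Matrix.of_apply]
  congr 1
  ring

/-- the multiplication by `X` -/
theorem mulX (a b c : K) (h : K[X]) (e : Fin 3 → K[X]) (G B M : Matrix (Fin 3) (Fin 3) K)
    (hG : ∀ i j, tau a b c (e i * e j * h) = G i j)
    (hB : ∀ i j, tau a b c (X * (e i * e j * h)) = B i j) (hd : G.det ≠ 0) (hM : G * M = B) :
    EM a b c e * M = cm a b c * EM a b c e ∧ (EM a b c e).det ≠ 0 ∧ M.charpoly = cub a b c := by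
  set E := EM a b c e with hE
  have h1 := gram a b c h e G hG
  have h2 := gram a b c (X * h) e B (fun i j => by rw [← hB i j]; congr 1; ring)
  rw [gr0_X, gr1_eq] at h2
  rw [← hE] at h1 h2
  have hdE : E.det ≠ 0 := by
    intro h0
    apply hd
    rw [h1, Matrix.det_mul, h0, mul_zero]
  have hdG : (Eᵀ * gr0 a b c h).det ≠ 0 := by
    intro h0
    apply hd
    rw [h1, Matrix.det_mul, h0, zero_mul]
  have h3 : (Eᵀ * gr0 a b c h) * (E * M) = (Eᵀ * gr0 a b c h) * (cm a b c * E) := by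
    rw [← Matrix.mul_assoc, ← h1, hM, h2]
    simp only [Matrix.mul_assoc]
  have hu : IsUnit (Eᵀ * gr0 a b c h).det := isUnit_iff_ne_zero.2 hdG
  have h4 : E * M = cm a b c * E := by
    have := congrArg (fun N => (Eᵀ * gr0 a b c h)⁻¹ * N) h3
    simp only [Matrix.nonsing_inv_mul_cancel_left _ _ hu] at this
    exact this
  refine ⟨h4, hdE, ?_⟩
  have huE : IsUnit E.det := isUnit_iff_ne_zero.2 hdE
  have h5 : M = E⁻¹ * cm a b c * E := by
    rw [Matrix.mul_assoc, ← h4, Matrix.nonsing_inv_mul_cancel_left _ _ huE]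
  have hE1 : IsUnit E := (Matrix.isUnit_iff_isUnit_det _).2 huE
  obtain ⟨U, hU⟩ := hE1
  have h6 : M = U.val⁻¹ * cm a b c * U.val := by rw [h5, hU]
  rw [h6, Matrix.charpoly_units_conj', cm_charpoly]

/-- linear combination of the family -/
noncomputable def pol (e : Fin 3 → K[X]) (w : Fin 3 → K) : K[X] :=
  C (w 0) * e 0 + C (w 1) * e 1 + C (w 2) * e 2

theorem co_add (a b c : K) (p q : K[X]) (i : Fin 3) :
    LM.co a b c (p + q) i = LM.co a b c p i + LM.co a b c q i := by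
  unfold LM.co
  rw [add_modByMonic, coeff_add]

theorem co_C_mul (a b c : K) (x : K) (p : K[X]) (i : Fin 3) :
    LM.co a b c (C x * p) i = x * LM.co a b c p i := by
  unfold LM.co
  rw [← smul_eq_C_mul, smul_modByMonic, coeff_smul, smul_eq_mul]

theorem co_congr {a b c : K} {p q : K[X]} (h : cub a b c ∣ p - q) (i : Fin 3) :
    LM.co a b c p i = LM.co a b c q i := by
  unfold LM.co
  have h1 : (p - q) %ₘ cub a b c = 0 := (modByMonic_eq_zero_iff_dvd (LM.cub_monic a b c)).2 h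
  rw [sub_modByMonic] at h1
  rw [sub_eq_zero.1 h1]

theorem dvd_of_co {a b c : K} {p q : K[X]} (h : ∀ i, LM.co a b c p i = LM.co a b c q i) :
    cub a b c ∣ p - q := by
  have h1 := LM.co_spec a b c p
  have h2 := LM.co_spec a b c q
  rw [h 0, h 1, h 2] at h1
  have := dvd_sub h1 h2
  rwa [sub_sub_sub_cancel_right] at this

theorem co_lt (a b c : K) (p : K[X]) (hp : p.natDegree < 3) (i : Fin 3) :
    LM.co a b c p i = p.coeff i := by
  unfold LM.co
  rw [(modByMonic_eq_self_iff (LM.cub_monic a b c)).2]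
  rw [degree_eq_natDegree (LM.cub_monic a b c).ne_zero, LM.cub_natDegree]
  exact (degree_le_natDegree).trans_lt (by exact_mod_cast hp)

theorem co_X (a b c : K) (p : K[X]) (i : Fin 3) :
    LM.co a b c (X * p) i = (cm a b c *ᵥ LM.co a b c p) i := by
  have h1 : cub a b c ∣ X * p - (C (-c * LM.co a b c p 2) +
      C (LM.co a b c p 0 - b * LM.co a b c p 2) * X +
      C (LM.co a b c p 1 - a * LM.co a b c p 2) * X ^ 2) := by
    obtain ⟨u, hu⟩ := LM.co_spec a b c p
    refine ⟨X * u + C (LM.co a b c p 2), ?_⟩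
    generalize LM.co a b c p 0 = x0 at hu ⊢
    generalize LM.co a b c p 1 = x1 at hu ⊢
    generalize LM.co a b c p 2 = x2 at hu ⊢
    have hu' : p = (C x0 * X ^ 0 + C x1 * X ^ 1 + C x2 * X ^ 2) + cub a b c * u := by
      rw [← hu]
      simp only [Fin.val_zero, Fin.val_one, Fin.val_two]
      ring
    rw [hu']
    unfold cub
    simp only [C_neg, C_mul, C_sub]
    ring
  rw [co_congr h1 i, co_lt]
  · have e : ∀ x0 x1 x2 : K, (C x0 + C x1 * X + C x2 * X ^ 2 : K[X]).coeff (i : ℕ) =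
        ![x0, x1, x2] i := by
      intro x0 x1 x2
      fin_cases i <;> simp [coeff_X, coeff_C]
    rw [e]
    simp only [cm, Matrix.mulVec, dotProduct, Fin.sum_univ_three]
    fin_cases i <;> simp <;> ring
  · have : (C (-c * LM.co a b c p 2) +
      C (LM.co a b c p 0 - b * LM.co a b c p 2) * X +
      C (LM.co a b c p 1 - a * LM.co a b c p 2) * X ^ 2 : K[X]).natDegree ≤ 2 := by
      compute_degree
    omega

theorem co_pol (a b c : K) (e : Fin 3 → K[X]) (w : Fin 3 → K) :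
    LM.co a b c (pol e w) = EM a b c e *ᵥ w := by
  funext i
  unfold pol
  rw [co_add, co_add, co_C_mul, co_C_mul, co_C_mul, Matrix.mulVec, dotProduct,
    Fin.sum_univ_three]
  simp only [EM, Matrix.of_apply]
  ring

theorem X_pol (a b c : K) (e : Fin 3 → K[X]) (M : Matrix (Fin 3) (Fin 3) K)
    (hM : EM a b c e * M = cm a b c * EM a b c e) (w : Fin 3 → K) :
    cub a b c ∣ X * pol e w - pol e (M *ᵥ w) := by
  apply dvd_of_co
  intro i
  rw [co_X, co_pol, co_pol, Matrix.mulVec_mulVec, Matrix.mulVec_mulVec, hM]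

theorem tau_pol (a b c : K) (h : K[X]) (e : Fin 3 → K[X]) (G : Matrix (Fin 3) (Fin 3) K)
    (hG : ∀ i j, tau a b c (e i * e j * h) = G i j) (u v : Fin 3 → K) :
    tau a b c (pol e u * pol e v * h) = u ⬝ᵥ (G *ᵥ v) := by
  have e1 : pol e u * pol e v * h =
      C (u 0 * v 0) * (e 0 * e 0 * h) + C (u 0 * v 1) * (e 0 * e 1 * h) +
      C (u 0 * v 2) * (e 0 * e 2 * h) + C (u 1 * v 0) * (e 1 * e 0 * h) +
      C (u 1 * v 1) * (e 1 * e 1 * h) + C (u 1 * v 2) * (e 1 * e 2 * h) +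
      C (u 2 * v 0) * (e 2 * e 0 * h) + C (u 2 * v 1) * (e 2 * e 1 * h) +
      C (u 2 * v 2) * (e 2 * e 2 * h) := by
    unfold pol
    simp only [C_mul]
    ring
  rw [e1]
  simp only [LM.tau_add, LM.tau_C_mul, hG]
  simp only [Matrix.mulVec, dotProduct, Fin.sum_univ_three]
  ring

/-- the three coefficients in terms of `tau` -/
theorem tau_coef (a b c : K) (p : K[X]) :
    LM.co a b c p 2 = tau a b c p ∧
    LM.co a b c p 1 = tau a b c (X * p) + a * tau a b c p ∧
    LM.co a b c p 0 = tau a b c (X * (X * p)) + a * tau a b c (X * p) + b * tau a b c p := by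
  have h : ∀ q : K[X], tau a b c q = LM.co a b c q 2 := fun q => rfl
  rw [h, h, h]
  have h1 := co_X a b c p 2
  have h2 := co_X a b c (X * p) 2
  have h3 := co_X a b c p 1
  simp only [cm, Matrix.mulVec, dotProduct, Fin.sum_univ_three, Matrix.of_apply,
    Matrix.cons_val', Matrix.cons_val_zero, Matrix.cons_val_one, Matrix.cons_val] at h1 h2 h3
  refine ⟨rfl, ?_, ?_⟩
  · linear_combination -h1
  · rw [h2, h3]; ring

end Coord

section Main

variable {F : Type} [Field F]

theorem cyc (hCYM : CYMStmt) (hNUN : NUNStmt) : CYCStmt := by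
  intro F _ _ h2 P hPm hP f hdisc h G B hR hGI hB
  obtain ⟨e, hG1, hB1⟩ := hR
  set a := (kf f).1 with ha
  set b := (kf f).2.1 with hb
  set c := (kf f).2.2 with hc
  have hcub : cubK f = cub a b c := rfl
  obtain ⟨hGm, hGd0, hGd, hGdi⟩ := hGI
  have hadd : ∀ x y : RatFunc F, x ∈ IP P → y ∈ IP P → x + y ∈ IP P := fun x y hx hy =>
    (AVS.POL.part2 P hP x y hx hy).1
  have hmul : ∀ x y : RatFunc F, x ∈ IP P → y ∈ IP P → x * y ∈ IP P := fun x y hx hy =>
    (AVS.POL.part2 P hP x y hx hy).2.1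
  have hneg : ∀ x : RatFunc F, x ∈ IP P → -x ∈ IP P := fun x hx =>
    (AVS.POL.part2 P hP x x hx hx).2.2
  have hsub : ∀ x y : RatFunc F, x ∈ IP P → y ∈ IP P → x - y ∈ IP P := fun x y hx hy => by
    rw [sub_eq_add_neg]; exact hadd _ _ hx (hneg _ hy)
  have hrf : ∀ x : F[X], rf x ∈ IP P := fun x => USE.IP_rf hP x
  have haI : a ∈ IP P := hrf _
  have hbI : b ∈ IP P := hrf _
  have hcI : c ∈ IP P := hrf _
  -- the matrix of the multiplication by `X`
  have hadj : ∀ i j, G.adjugate i j ∈ IP P := by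
    intro i j
    rw [Matrix.adjugate_fin_three]
    fin_cases i <;> fin_cases j <;>
      simp only [Fin.zero_eta, Fin.mk_one, Fin.reduceFinMk, Matrix.of_apply, Matrix.cons_val',
        Matrix.cons_val_zero, Matrix.cons_val_one, Matrix.cons_val, Matrix.cons_val_fin_one] <;>
      first
        | exact hsub _ _ (hmul _ _ (hGm _ _) (hGm _ _)) (hmul _ _ (hGm _ _) (hGm _ _))
        | exact hadd _ _ (hneg _ (hmul _ _ (hGm _ _) (hGm _ _))) (hmul _ _ (hGm _ _) (hGm _ _))
  set M : Matrix (Fin 3) (Fin 3) (RatFunc F) := (G.det)⁻¹ • (G.adjugate * B) with hM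
  have hGM : G * M = B := by
    rw [hM, Matrix.mul_smul, ← Matrix.mul_assoc, Matrix.mul_adjugate, Matrix.smul_mul,
      Matrix.one_mul, smul_smul, inv_mul_cancel₀ hGd0, one_smul]
  have hMI : MI (IP P) M := by
    intro i j
    rw [hM, Matrix.smul_apply, smul_eq_mul, Matrix.mul_apply, Fin.sum_univ_three]
    exact hmul _ _ hGdi (hadd _ _ (hadd _ _ (hmul _ _ (hadj _ _) (hB _ _))
      (hmul _ _ (hadj _ _) (hB _ _))) (hmul _ _ (hadj _ _) (hB _ _)))
  obtain ⟨hEM, hEd, hchar⟩ := mulX a b c h e G B M hG1 hB1 hGd0 hGM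
  have hdisc' : disc a b c / rf P ^ 2 ∉ IP P := by
    have e1 : disc a b c = rf (disc f.1 f.2.1 f.2.2) := by
      simp only [ha, hb, hc, kf, disc, rf]
      simp only [map_sub, map_add, map_mul, map_pow, map_ofNat]
    rw [e1]
    intro h
    exact hdisc (((AVS.POL.part3 P _ hP).2 2).1 h)
  obtain ⟨v, hv, hV0, hV1, hV2⟩ := hCYM F h2 P hPm hP M a b c hMI hchar hdisc'
  set v1 := M *ᵥ v with hv1
  set v2 := M *ᵥ v1 with hv2
  set V : Matrix (Fin 3) (Fin 3) (RatFunc F) := Matrix.of ![v, v1, v2] with hV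
  have hmv : ∀ w : Fin 3 → RatFunc F, (∀ i, w i ∈ IP P) → ∀ i, (M *ᵥ w) i ∈ IP P := by
    intro w hw i
    rw [Matrix.mulVec, dotProduct, Fin.sum_univ_three]
    exact hadd _ _ (hadd _ _ (hmul _ _ (hMI _ _) (hw _)) (hmul _ _ (hMI _ _) (hw _)))
      (hmul _ _ (hMI _ _) (hw _))
  have hv1I := hmv v hv
  have hv2I := hmv v1 hv1I
  -- the cyclic vector
  set s := pol e v with hs
  have hs1 : cub a b c ∣ X * s - pol e v1 := X_pol a b c e M hEM v
  have hs2 : cub a b c ∣ X * (X * s) - pol e v2 := by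
    have h1 := X_pol a b c e M hEM v1
    obtain ⟨x, hx⟩ := hs1
    obtain ⟨y, hy⟩ := h1
    refine ⟨X * x + y, ?_⟩
    linear_combination X * hx + hy
  have hsi : ∀ i : Fin 3, cub a b c ∣ X ^ (i : ℕ) * s - pol e (![v, v1, v2] i) := by
    intro i
    fin_cases i
    · simp only [Fin.zero_eta, Fin.val_zero, pow_zero, one_mul, Matrix.cons_val_zero]
      rw [← hs, sub_self]
      exact dvd_zero _
    · simp only [Fin.mk_one, Fin.val_one, pow_one, Matrix.cons_val_one]
      exact hs1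
    · simp only [Fin.reduceFinMk, Fin.val_two, Matrix.cons_val]
      have : X ^ 2 * s = X * (X * s) := by ring
      rw [this]
      exact hs2
  have hgr : gr0 a b c (h * s ^ 2) = V * G * Vᵀ := by
    ext i j
    have e1 : gr0 a b c (h * s ^ 2) i j =
        tau a b c (pol e (![v, v1, v2] i) * pol e (![v, v1, v2] j) * h) := by
      simp only [gr0, Matrix.of_apply]
      apply LM.tau_congr
      obtain ⟨x, hx⟩ := hsi i
      obtain ⟨y, hy⟩ := hsi j
      refine ⟨x * (X ^ (j : ℕ) * s) * h + y * pol e (![v, v1, v2] i) * h, ?_⟩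
      linear_combination (X ^ (j : ℕ) * s) * h * hx + pol e (![v, v1, v2] i) * h * hy
    rw [e1, tau_pol a b c h e G hG1]
    rw [Matrix.mul_assoc, Matrix.mul_apply]
    simp only [dotProduct]
    apply Finset.sum_congr rfl
    intro k _
    congr 1
  have hgrI : ∀ i j, gr0 a b c (h * s ^ 2) i j ∈ IP P := by
    intro i j
    have hVI : ∀ i j, V i j ∈ IP P := by
      intro i j
      fin_cases i
      · exact hv j
      · exact hv1I j
      · exact hv2I j
    rw [hgr, Matrix.mul_apply, Fin.sum_univ_three, Matrix.mul_apply, Matrix.mul_apply,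
      Matrix.mul_apply, Fin.sum_univ_three, Fin.sum_univ_three, Fin.sum_univ_three]
    simp only [Matrix.transpose_apply]
    have h3 : ∀ k, V i 0 * G 0 k + V i 1 * G 1 k + V i 2 * G 2 k ∈ IP P := fun k =>
      hadd _ _ (hadd _ _ (hmul _ _ (hVI _ _) (hGm _ _)) (hmul _ _ (hVI _ _) (hGm _ _)))
        (hmul _ _ (hVI _ _) (hGm _ _))
    exact hadd _ _ (hadd _ _ (hmul _ _ (h3 _) (hVI _ _)) (hmul _ _ (h3 _) (hVI _ _)))
        (hmul _ _ (h3 _) (hVI _ _))
  -- the coefficients
  obtain ⟨c2, c1, c0⟩ := tau_coef a b c (h * s ^ 2)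
  have t0 : tau a b c (h * s ^ 2) ∈ IP P := by
    have := hgrI 0 0
    simp only [gr0, Matrix.of_apply, Fin.val_zero, pow_zero, one_mul] at this
    exact this
  have t1 : tau a b c (X * (h * s ^ 2)) ∈ IP P := by
    have := hgrI 0 1
    simp only [gr0, Matrix.of_apply, Fin.val_zero, Fin.val_one, pow_zero, pow_one,
      one_mul] at this
    exact this
  have t2 : tau a b c (X * (X * (h * s ^ 2))) ∈ IP P := by
    have := hgrI 1 1
    simp only [gr0, Matrix.of_apply, Fin.val_one, pow_one, mul_assoc] at this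
    exact this
  have hco : ∀ i, LM.co a b c (h * s ^ 2) i ∈ IP P := by
    intro i
    fin_cases i
    · show LM.co a b c (h * s ^ 2) 0 ∈ IP P
      rw [c0]
      exact hadd _ _ (hadd _ _ t2 (hmul _ _ haI t1)) (hmul _ _ hbI t0)
    · show LM.co a b c (h * s ^ 2) 1 ∈ IP P
      rw [c1]
      exact hadd _ _ t1 (hmul _ _ haI t0)
    · show LM.co a b c (h * s ^ 2) 2 ∈ IP P
      rw [c2]
      exact t0
  obtain ⟨x, D, hPD, hD0, hxD⟩ := LMI.common P hP (LM.co a b c (h * s ^ 2)) hco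
  let p : F[X][X] := C (D * x 0) + C (D * x 1) * X + C (D * x 2) * X ^ 2
  have hlf : lf p = C (rf D ^ 2 * LM.co a b c (h * s ^ 2) 0) +
      C (rf D ^ 2 * LM.co a b c (h * s ^ 2) 1) * X +
      C (rf D ^ 2 * LM.co a b c (h * s ^ 2) 2) * X ^ 2 := by
    have e1 : ∀ i, rf D ^ 2 * LM.co a b c (h * s ^ 2) i = rf (D * x i) := by
      intro i
      have : rf (D * x i) = rf D * rf (x i) := by simp [rf]
      rw [this, ← hxD i]
      ring
    rw [e1, e1, e1]
    simp [p, lf, rf]
  have hdvd : cub a b c ∣ h * (C (rf D) * s) ^ 2 - lf p := by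
    obtain ⟨y, hy⟩ := LM.co_spec a b c (h * s ^ 2)
    refine ⟨C (rf D ^ 2) * y, ?_⟩
    rw [hlf]
    simp only [Fin.val_zero, Fin.val_one, Fin.val_two, pow_zero, pow_one, mul_one] at hy
    simp only [C_mul, C_pow] at hy ⊢
    linear_combination (C (rf D)) ^ 2 * hy
  refine ⟨C (rf D) * s, p, hdvd, ?_⟩
  obtain ⟨_, ν, _, hν, hU⟩ := hNUN F f p
  rw [hU P hP]
  intro hPν
  -- the determinant
  have hg0 : g0 f (lf p) = (rf D ^ 2) • gr0 a b c (h * s ^ 2) := by
    ext i j
    show tau a b c (X ^ (i : ℕ) * X ^ (j : ℕ) * lf p) = _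
    rw [Matrix.smul_apply, smul_eq_mul]
    simp only [gr0, Matrix.of_apply]
    rw [← LM.tau_C_mul]
    apply LM.tau_congr
    obtain ⟨y, hy⟩ := hdvd
    refine ⟨-(X ^ (i : ℕ) * X ^ (j : ℕ) * y), ?_⟩
    have e2 : (C (rf D ^ 2) : (RatFunc F)[X]) = C (rf D) ^ 2 := C_pow
    rw [e2]
    linear_combination (-(X ^ (i : ℕ) * X ^ (j : ℕ))) * hy
  rw [hg0, Matrix.det_smul, Fintype.card_fin, hgr, Matrix.det_mul, Matrix.det_mul,
    Matrix.det_transpose] at hν
  obtain ⟨ν', hν'⟩ := hPν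
  -- `(rf D)^6 = - rf ν / (V.det^2 G.det)`
  have e3 : rf (D ^ 6) / rf P = -(rf ν') * (V.det⁻¹ * V.det⁻¹ * G.det⁻¹) := by
    have hP0 : rf P ≠ 0 := RatFunc.algebraMap_ne_zero hP.ne_zero
    have e4 : rf ν = rf P * rf ν' := by rw [hν', rf, map_mul]
    have e5 : rf (D ^ 6) = rf D ^ 6 := by rw [rf, map_pow]
    rw [e5]
    rw [e4] at hν
    field_simp
    linear_combination hν
  have h7 : rf (D ^ 6) / rf P ^ 1 ∈ IP P := by
    rw [pow_one, e3]
    exact hmul _ _ (hneg _ (hrf _)) (hmul _ _ (hmul _ _ hV2 hV2) hGdi)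
  have h8 := ((AVS.POL.part3 P _ hP).2 1).1 h7
  rw [pow_one] at h8
  exact hPD (hP.prime.dvd_of_dvd_pow h8)

end Main

end CYC

theorem cyc_thm (hCYM : CYMStmt) (hNUN : NUNStmt) : CYCStmt := CYC.cyc hCYM hNUN

end Pool.PRL

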